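import Pool.Agent.Helper46.WG.L15

/-!
# MP_2b6189_al: in a simple integral modular datum every nontrivial dimension occurs often
-/

set_option autoImplicit false

namespace Pool.Agent.Results.MP_2b6189_al.ManyOfDimension

open Pool.Agent.Helper46.WG

/-- Let `M` be an integral modular datum with only the two trivial fusion subsets, and `p` a prime with `p²` dividing the
global dimension. Then for every simple object `V ≠ 1` the number of simple objects of dimension `d V`, times `d V`, is at
least `p`. -/
theorem result (I : Type) [Fintype I] [DecidableEq I] (M : IntegralModularDatum I)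
    (hsim : ∀ F : Finset I, M.IsFusion F → F = {M.unit} ∨ F = Finset.univ)
    (p : ℕ) (hp : p.Prime) (hpD : p ^ 2 ∣ ∑ i, M.d i ^ 2) (V : I) (hV : V ≠ M.unit) :
    p ≤ Nat.card {X : I // M.d X = M.d V} * M.d V := by
  classical
  rw [Nat.card_eq_fintype_card, Fintype.card_subtype]
  exact IntegralModularDatum.many_of_dim hsim hp hpD hV

end Pool.Agent.Results.MP_2b6189_al.ManyOfDimension
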