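import Pool.Agent.Helper46.DZ2.Final
import Pool.Agent.Helper7.DZ2.M_C
import Pool.Agent.Helper60.DZ2.M_Red
import Pool.Agent.Helper28.DZ2.M_Ring
import Pool.Agent.Helper92.DZ2.M_Num
import Pool.Agent.Helper72.DZ2.M_Target

/-!
For every prime `n ≥ 5` the group `PSL(2, 2^n)` is a composition factor of a finite group of
deficiency zero.

The group is `⟨a, w, t | a w a = w a w, φ⁻¹ t φ = t², (w₀ a₀)⁻¹ t (w₀ a₀) = (t^{-l} a₀ t^l)⁻¹ t^{-e}⟩`
with `φ = (a w)^{3k}`, `a₀ = a φ⁻¹`, `w₀ = w φ⁻¹`, `|6k - 1| = n`; it maps onto the semidirect product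
of `SL(2, 2^n)` with its group of field automorphisms.
-/

namespace Pool.Agent.Helper46.Old.PSLTwoPrimeDegree

open Pool.Agent.Helper41.DZ

theorem result : ∀ n : ℕ, n.Prime → 5 ≤ n →
    ∃ (G : Type) (_ : Group G), Finite G ∧ DeficiencyZero G ∧
      IsCompositionFactor (Matrix.ProjectiveSpecialLinearGroup (Fin 2) (GaloisField 2 n)) G :=
  fun n hn h5 => Pool.Agent.Helper46.DZ2.main Pool.Agent.Helper7.DZ2.hC
    Pool.Agent.Helper60.DZ2.hRed Pool.Agent.Helper28.DZ2.hRing Pool.Agent.Helper92.DZ2.hNum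
    Pool.Agent.Helper72.DZ2.hTarget n hn h5

end Pool.Agent.Helper46.Old.PSLTwoPrimeDegree
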